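import Pool.Agent.H14.PNF.S6
import Pool.Agent.H94.NF.FAML
import Pool.Agent.H46.NF.BXU
import Pool.Agent.H46.NF.BXL

/-!
# PNF: the family with `a_1 = 0` as a product
-/

set_option autoImplicit false

namespace Pool.PNF.FZ66

open Polynomial Matrix NumberField IsDedekindDomain Pool.HYP Pool.TOW Pool.AVS Pool.T1 Pool.NF
  Pool.PRK

variable {K : Type} [Field K] [NumberField K]

theorem cf_mono {z η η' : ℝ} (h : η ≤ η') {I : Ideal (𝓞 K)} {c : 𝓞 K} {Y : ℝ} (hY : 0 ≤ Y)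
    {a : 𝓞 K} (ha : a ∈ Cf K z η I c Y) : a ∈ Cf K z η' I c Y := by
  refine ⟨ha.1, fun σ => (ha.2 σ).trans ?_⟩
  exact mul_le_mul_of_nonneg_right h hY

/-- The upper bound for the size of a class. -/
theorem cf_upper (K : Type) [Field K] [NumberField K] : ∃ C : ℝ, 0 < C ∧
    ∀ (z : ℝ) (I : Ideal (𝓞 K)) (c : 𝓞 K) (Y : ℝ), I ≠ ⊥ → 0 ≤ Y →
      (Ni I : ℝ) ≤ Y ^ dg K →
      ((Cf K z (1 / 100) I c Y).ncard : ℝ) ≤ C * (Y ^ dg K / Ni I) := by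
  obtain ⟨C, hC, hU⟩ := bxu K
  refine ⟨2 * C, by positivity, fun z I c Y hI hY hN => ?_⟩
  have hNI : (0 : ℝ) < Ni I := by exact_mod_cast CF.ni_pos hI
  rcases (Cf K z (1 / 100) I c Y).eq_empty_or_nonempty with he | ⟨a0, ha0⟩
  · rw [he, Set.ncard_empty, Nat.cast_zero]
    positivity
  · obtain ⟨hf, hb⟩ := hU I hI 0 Y hY
    have h1 : (Cf K z (1 / 100) I c Y).ncard ≤ {x ∈ Bx K Y | x - 0 ∈ I}.ncard := by
      refine Set.ncard_le_ncard_of_injOn (fun a => a - a0) ?_ ?_ hf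
      · intro a ha
        refine ⟨fun σ => ?_, ?_⟩
        · have e : σ ((a - a0 : 𝓞 K) : K) = (σ (a : K) - (z * Y : ℝ)) -
              (σ (a0 : K) - (z * Y : ℝ)) := by
            push_cast
            rw [map_sub]
            ring
          show ‖σ ((a - a0 : 𝓞 K) : K)‖ ≤ Y
          rw [e]
          refine (norm_sub_le _ _).trans ?_
          have h2 := ha.2 σ
          have h3 := ha0.2 σ
          linarith
        · rw [sub_zero]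
          have h2 := I.sub_mem ha.1 ha0.1
          have e : a - c - (a0 - c) = a - a0 := by ring
          rwa [e] at h2
      · intro a _ b _ hab
        exact sub_left_injective hab
    have h2 : (1 : ℝ) ≤ Y ^ dg K / Ni I := by
      rw [le_div_iff₀ hNI, one_mul]
      exact hN
    calc ((Cf K z (1 / 100) I c Y).ncard : ℝ) ≤ ({x ∈ Bx K Y | x - 0 ∈ I}.ncard : ℝ) := by
          exact_mod_cast h1
      _ ≤ C * (1 + Y ^ dg K / Ni I) := hb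
      _ ≤ 2 * C * (Y ^ dg K / Ni I) := by nlinarith

theorem mem_prod_iff (T : Finset (HeightOneSpectrum (𝓞 K))) (a : 𝓞 K) :
    a ∈ ∏ P ∈ T, P.asIdeal ↔ ∀ P ∈ T, a ∈ P.asIdeal := by
  have hpr : ∀ P ∈ T, Prime P.asIdeal := fun P _ => P.prime
  have hne : ∀ᵉ (P ∈ T) (Q ∈ T), P ≠ Q → P.asIdeal ≠ Q.asIdeal :=
    fun P _ Q _ h1 h2 => h1 (HeightOneSpectrum.ext h2)
  have h := IsDedekindDomain.inf_pow_eq_prod_of_prime T
    (fun P : HeightOneSpectrum (𝓞 K) => P.asIdeal) (fun _ => 1) hpr hne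
  simp only [pow_one] at h
  rw [← h, Submodule.mem_finsetInf]

open Classical in
/-- The families as products. -/
theorem famZ_eq (D : DatN K) (hD : D.Ok) (hT : Tr0N D) :
    ∃ (I : Ideal (𝓞 K)) (c₂ c₃ : 𝓞 K), I ≠ ⊥ ∧ I = ∏ P ∈ D.T ∪ D.T', P.asIdeal ∧
      (∀ P : HeightOneSpectrum (𝓞 K), P ∈ D.T ∨ P ∈ D.T' ↔ I ≤ P.asIdeal) ∧
      (∀ Y : ℕ, FamN D Y = (fun a : 𝓞 K × 𝓞 K × 𝓞 K => cub a.1 a.2.1 a.2.2) ''
        (Cf K 0 (1 / 100) I 0 Y ×ˢ (Cf K 0 (1 / 100) I c₂ ((Y : ℝ) ^ 2) ×ˢ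
          Cf K (-1) (1 / 100) I c₃ ((Y : ℝ) ^ 3)))) ∧
      (∀ Y : ℕ, FamZN D Y = (fun a : 𝓞 K × 𝓞 K => cub 0 a.1 a.2) ''
        (Cf K 0 (1 / 200) I c₂ ((Y : ℝ) ^ 2) ×ˢ Cf K (-1) (1 / 200) I c₃ ((Y : ℝ) ^ 3))) ∧
      ∀ Y : ℕ, TrN D Y = Cf K 0 (1 / 1000) I 0 Y := by
  obtain ⟨I, c₁, c₂, c₃, hI0, hIe, hI, hF⟩ := famN_eq D hD
  obtain ⟨c, hc, hL⟩ := famln (CF.cfl bxl) K
  obtain ⟨Y₀, hY₀⟩ := hL D hD
  have hmem : ∀ a : 𝓞 K, a ∈ I ↔ ∀ P ∈ D.T ∪ D.T', a ∈ P.asIdeal := by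
    intro a
    rw [hIe]
    exact mem_prod_iff _ a
  -- the class of a_1
  have hc₁ : c₁ ∈ I := by
    obtain ⟨-, h1⟩ := hY₀ (Y₀ + 1) (by omega)
    have h2 : (FamN D (Y₀ + 1)).Nonempty := by
      by_contra hcon
      rw [Set.not_nonempty_iff_eq_empty] at hcon
      rw [hcon, Set.ncard_empty, Nat.cast_zero, zero_mul, zero_mul, mul_zero] at h1
      have h3 : (0 : ℝ) < ((Y₀ + 1 : ℕ) : ℝ) ^ (6 * dg K) := by positivity
      linarith
    obtain ⟨f, hf⟩ := h2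
    have h3 : f.coeff 2 ∈ I := by
      rw [hmem]
      intro P hP
      rcases Finset.mem_union.1 hP with hP | hP
      · have h4 := hf.2.2.2.1 P hP 2
        rw [coeff_sub] at h4
        have h5 := P.asIdeal.add_mem h4 (hT.1 P hP)
        rwa [sub_add_cancel] at h5
      · have h4 := hf.2.2.2.2 P hP 2
        rw [coeff_sub] at h4
        have h5 := P.asIdeal.add_mem h4 (hT.2 P hP)
        rwa [sub_add_cancel] at h5
    rw [hF] at hf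
    obtain ⟨⟨a₁, a₂, a₃⟩, ⟨h4, -, -⟩, rfl⟩ := hf
    have h5 : (cub a₁ a₂ a₃).coeff 2 = a₁ := (cub_coeff a₁ a₂ a₃).2.2.1
    simp only at h3 h4
    rw [h5] at h3
    have h6 := I.sub_mem h3 h4.1
    have e : a₁ - (a₁ - c₁) = c₁ := by ring
    rwa [e] at h6
  have hcc : ∀ (z η Y : ℝ), Cf K z η I c₁ Y = Cf K z η I 0 Y := by
    intro z η Y
    ext a
    unfold Cf
    rw [Set.mem_ofPred_eq, Set.mem_ofPred_eq, sub_zero]
    constructor
    · rintro ⟨h1, h2⟩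
      refine ⟨?_, h2⟩
      have := I.add_mem h1 hc₁
      rwa [sub_add_cancel] at this
    · rintro ⟨h1, h2⟩
      exact ⟨I.sub_mem h1 hc₁, h2⟩
  refine ⟨I, c₂, c₃, hI0, hIe, hI, fun Y => by rw [hF Y, hcc], fun Y => ?_, fun Y => ?_⟩
  · have hY : (0 : ℝ) ≤ (Y : ℝ) := Nat.cast_nonneg Y
    ext f
    constructor
    · rintro ⟨hf, h2, h1, h0⟩
      have hmon := hf.1
      have hdeg := hf.2.1
      rw [hF Y] at hf
      obtain ⟨⟨a₁, a₂, a₃⟩, ⟨-, h4, h5⟩, rfl⟩ := hf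
      simp only at h4 h5 h2 h1 h0 hmon hdeg ⊢
      obtain ⟨e0, e1, e2, -⟩ := cub_coeff a₁ a₂ a₃
      rw [e2] at h2
      rw [e1] at h1
      rw [e0] at h0
      subst h2
      refine ⟨(a₂, a₃), ⟨⟨h4.1, fun σ => ?_⟩, ⟨h5.1, fun σ => ?_⟩⟩, rfl⟩
      · have := h1 σ
        rw [zero_mul, Complex.ofReal_zero, sub_zero, one_div_mul_eq_div]
        exact this
      · have := h0 σ
        have e : σ ((a₃ + (Y : 𝓞 K) ^ 3 : 𝓞 K) : K) =
            σ (a₃ : K) - ((-1 : ℝ) * (Y : ℝ) ^ 3 : ℝ) := by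
          push_cast
          simp only [map_add, map_pow, map_natCast]
          ring
        rw [e] at this
        rw [one_div_mul_eq_div]
        exact this
    · rintro ⟨⟨a₂, a₃⟩, ⟨h4, h5⟩, rfl⟩
      simp only at h4 h5 ⊢
      obtain ⟨e0, e1, e2, -⟩ := cub_coeff (0 : 𝓞 K) a₂ a₃
      refine ⟨?_, e2, ?_, ?_⟩
      · rw [hF Y]
        refine ⟨(0, a₂, a₃), ⟨⟨?_, fun σ => ?_⟩, ?_, ?_⟩, rfl⟩
        · rw [zero_sub]
          exact I.neg_mem hc₁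
        · simp
        · exact cf_mono (by norm_num) (by positivity) h4
        · exact cf_mono (by norm_num) (by positivity) h5
      · rw [e1]
        intro σ
        have := h4.2 σ
        rw [zero_mul, Complex.ofReal_zero, sub_zero, one_div_mul_eq_div] at this
        exact this
      · rw [e0]
        intro σ
        have := h5.2 σ
        have e : σ ((a₃ + (Y : 𝓞 K) ^ 3 : 𝓞 K) : K) =
            σ (a₃ : K) - ((-1 : ℝ) * (Y : ℝ) ^ 3 : ℝ) := by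
          push_cast
          simp only [map_add, map_pow, map_natCast]
          ring
        rw [e]
        rw [one_div_mul_eq_div] at this
        exact this
  · ext t
    unfold TrN Cf
    rw [Set.mem_ofPred_eq, Set.mem_ofPred_eq, sub_zero, hmem]
    constructor
    · rintro ⟨h1, h2⟩
      refine ⟨fun P hP => h2 P (Finset.mem_union.1 hP), fun σ => ?_⟩
      have := h1 σ
      rw [zero_mul, Complex.ofReal_zero, sub_zero, one_div_mul_eq_div]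
      exact this
    · rintro ⟨h1, h2⟩
      refine ⟨fun σ => ?_, fun P hP => h1 P (Finset.mem_union.2 hP)⟩
      have := h2 σ
      rw [zero_mul, Complex.ofReal_zero, sub_zero, one_div_mul_eq_div] at this
      exact this

end Pool.PNF.FZ66

namespace Pool.PNF

open Polynomial Matrix NumberField IsDedekindDomain Pool.HYP Pool.TOW Pool.AVS Pool.T1 Pool.NF
  Pool.PRK FZ66

theorem fazn : FAZNStmt := by
  classical
  intro K _ _
  obtain ⟨C, hC, hU⟩ := cf_upper K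
  obtain ⟨C₁, hC₁, hL₁⟩ := CF.cfl bxl K 0 (1 / 1000) (by norm_num)
  obtain ⟨C₂, hC₂, hL₂⟩ := CF.cfl bxl K 0 (1 / 200) (by norm_num)
  obtain ⟨C₃, hC₃, hL₃⟩ := CF.cfl bxl K (-1) (1 / 200) (by norm_num)
  refine ⟨C ^ 3 / (C₁ * C₂ * C₃) + (C₂ * C₃)⁻¹, by positivity, fun D hD hT => ?_⟩
  obtain ⟨I, c₂, c₃, hI0, hIe, hI, hF, hFZ, hTr⟩ := famZ_eq D hD hT
  obtain ⟨Y₁, hY₁, h1⟩ := hL₁ I hI0
  obtain ⟨Y₂, hY₂, h2⟩ := hL₂ I hI0
  obtain ⟨Y₃, hY₃, h3⟩ := hL₃ I hI0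
  obtain ⟨Y₀, hY₀⟩ := exists_nat_ge (max (max Y₁ (Ni I : ℝ)) (max Y₂ Y₃))
  refine ⟨Y₀, fun Y hY => ?_⟩
  have hYr : max (max Y₁ (Ni I : ℝ)) (max Y₂ Y₃) ≤ (Y : ℝ) := hY₀.trans (by exact_mod_cast hY)
  have hY1 : Y₁ ≤ (Y : ℝ) := (le_max_left _ _).trans ((le_max_left _ _).trans hYr)
  have hYN : (Ni I : ℝ) ≤ (Y : ℝ) := (le_max_right _ _).trans ((le_max_left _ _).trans hYr)
  have hY2 : Y₂ ≤ (Y : ℝ) := (le_max_left _ _).trans ((le_max_right _ _).trans hYr)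
  have hY3 : Y₃ ≤ (Y : ℝ) := (le_max_right _ _).trans ((le_max_right _ _).trans hYr)
  have hYo : (1 : ℝ) ≤ Y := hY₁.trans hY1
  have hpow : ∀ k : ℕ, 1 ≤ k → (Y : ℝ) ≤ (Y : ℝ) ^ k := by
    intro k hk
    calc (Y : ℝ) = (Y : ℝ) ^ 1 := (pow_one _).symm
      _ ≤ (Y : ℝ) ^ k := pow_le_pow_right₀ hYo hk
  have hn : 1 ≤ dg K := Module.finrank_pos
  have hNI : (0 : ℝ) < Ni I := by exact_mod_cast CF.ni_pos hI0
  have hFfin : (FamN D Y).Finite := by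
    rw [hF Y]
    exact ((CF.cf_fin _ _ _ _ _).prod ((CF.cf_fin _ _ _ _ _).prod (CF.cf_fin _ _ _ _ _))).image _
  have hcard : (FamN D Y).ncard = (Cf K 0 (1 / 100) I 0 (Y : ℝ)).ncard *
      (Cf K 0 (1 / 100) I c₂ ((Y : ℝ) ^ 2)).ncard *
      (Cf K (-1) (1 / 100) I c₃ ((Y : ℝ) ^ 3)).ncard := by
    rw [hF Y, Set.ncard_image_of_injective _ cub_inj, Set.ncard_prod, Set.ncard_prod, mul_assoc]
  have hinj : Function.Injective (fun a : 𝓞 K × 𝓞 K => cub 0 a.1 a.2) := by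
    intro a b hab
    have h := @cub_inj (𝓞 K) _ (0, a.1, a.2) (0, b.1, b.2) hab
    simp only [Prod.mk.injEq, true_and] at h
    exact Prod.ext h.1 h.2
  have hcardZ : (FamZN D Y).ncard = (Cf K 0 (1 / 200) I c₂ ((Y : ℝ) ^ 2)).ncard *
      (Cf K (-1) (1 / 200) I c₃ ((Y : ℝ) ^ 3)).ncard := by
    rw [hFZ Y, Set.ncard_image_of_injective _ hinj, Set.ncard_prod]
  have u1 := hU 0 I 0 (Y : ℝ) hI0 (by positivity) (hYN.trans (hpow _ hn))
  have u2 := hU 0 I c₂ ((Y : ℝ) ^ 2) hI0 (by positivity) (hYN.trans (by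
    rw [← pow_mul]
    exact hpow _ (by omega)))
  have u3 := hU (-1) I c₃ ((Y : ℝ) ^ 3) hI0 (by positivity) (hYN.trans (by
    rw [← pow_mul]
    exact hpow _ (by omega)))
  have l1 := h1 (Y : ℝ) hY1 0
  have l2 := h2 ((Y : ℝ) ^ 2) (hY2.trans (hpow 2 (by norm_num))) c₂
  have l3 := h3 ((Y : ℝ) ^ 3) (hY3.trans (hpow 3 (by norm_num))) c₃
  obtain ⟨q1, hq1⟩ : ∃ q, q = (Y : ℝ) ^ dg K / Ni I := ⟨_, rfl⟩
  obtain ⟨q2, hq2⟩ : ∃ q, q = ((Y : ℝ) ^ 2) ^ dg K / Ni I := ⟨_, rfl⟩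
  obtain ⟨q3, hq3⟩ : ∃ q, q = ((Y : ℝ) ^ 3) ^ dg K / Ni I := ⟨_, rfl⟩
  have p1 : 0 < q1 := by rw [hq1]; positivity
  have p2 : 0 < q2 := by rw [hq2]; positivity
  have p3 : 0 < q3 := by rw [hq3]; positivity
  rw [← hq1] at u1 l1
  rw [← hq2] at u2 l2
  rw [← hq3] at u3 l3
  have hZ : C₂ * q2 * (C₃ * q3) ≤ ((FamZN D Y).ncard : ℝ) := by
    rw [hcardZ, Nat.cast_mul]
    exact mul_le_mul l2 l3 (by positivity) ((by positivity : 0 ≤ C₂ * q2).trans l2)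
  refine ⟨hFfin, ?_, ?_, ?_⟩
  · rw [hTr Y]
    exact CF.cf_fin _ _ _ _ _
  · have hTZ : C₁ * q1 * (C₂ * q2 * (C₃ * q3)) ≤
        ((TrN D Y).ncard : ℝ) * ((FamZN D Y).ncard : ℝ) := by
      rw [hTr Y]
      exact mul_le_mul l1 hZ (by positivity) ((by positivity : 0 ≤ C₁ * q1).trans l1)
    have hFu : ((FamN D Y).ncard : ℝ) ≤ C * q1 * (C * q2) * (C * q3) := by
      rw [hcard, Nat.cast_mul, Nat.cast_mul]
      exact mul_le_mul (mul_le_mul u1 u2 (Nat.cast_nonneg _) (by positivity)) u3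
        (Nat.cast_nonneg _) (by positivity)
    have hpos : (0 : ℝ) ≤ ((TrN D Y).ncard : ℝ) * ((FamZN D Y).ncard : ℝ) := by positivity
    calc ((FamN D Y).ncard : ℝ) ≤ C * q1 * (C * q2) * (C * q3) := hFu
      _ = C ^ 3 / (C₁ * C₂ * C₃) * (C₁ * q1 * (C₂ * q2 * (C₃ * q3))) := by
        field_simp
      _ ≤ C ^ 3 / (C₁ * C₂ * C₃) * (((TrN D Y).ncard : ℝ) * ((FamZN D Y).ncard : ℝ)) :=
        mul_le_mul_of_nonneg_left hTZ (by positivity)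
      _ ≤ (C ^ 3 / (C₁ * C₂ * C₃) + (C₂ * C₃)⁻¹) *
          (((TrN D Y).ncard : ℝ) * ((FamZN D Y).ncard : ℝ)) :=
        mul_le_mul_of_nonneg_right (le_add_of_nonneg_right (by positivity)) hpos
  · have hN : (Ni I : ℝ) = (∏ P ∈ D.T, (Nm P : ℝ)) * ∏ P ∈ D.T', (Nm P : ℝ) := by
      rw [← Finset.prod_union hD.1, CF.ni_eq, hIe, map_prod, Nat.cast_prod]
      refine Finset.prod_congr rfl fun P _ => ?_
      rw [← CF.ni_eq]
      rfl
    have e3 : (∏ P ∈ D.T, (Nm P : ℝ) ^ 2) * ∏ P ∈ D.T', (Nm P : ℝ) ^ 2 = (Ni I : ℝ) ^ 2 := by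
      rw [Finset.prod_pow, Finset.prod_pow, ← mul_pow, ← hN]
    rw [mul_assoc ((FamZN D Y).ncard : ℝ), e3]
    have e5 : (Y : ℝ) ^ (5 * dg K) = q2 * q3 * (Ni I : ℝ) ^ 2 := by
      rw [hq2, hq3]
      field_simp
      rw [← pow_mul, ← pow_mul, ← pow_add]
      congr 1
      ring
    rw [e5]
    calc q2 * q3 * (Ni I : ℝ) ^ 2 = (C₂ * C₃)⁻¹ * ((C₂ * q2 * (C₃ * q3)) * (Ni I : ℝ) ^ 2) := by
          field_simp
      _ ≤ (C₂ * C₃)⁻¹ * (((FamZN D Y).ncard : ℝ) * (Ni I : ℝ) ^ 2) :=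
        mul_le_mul_of_nonneg_left (mul_le_mul_of_nonneg_right hZ (by positivity)) (by positivity)
      _ ≤ (C ^ 3 / (C₁ * C₂ * C₃) + (C₂ * C₃)⁻¹) * (((FamZN D Y).ncard : ℝ) * (Ni I : ℝ) ^ 2) :=
        mul_le_mul_of_nonneg_right (le_add_of_nonneg_left (by positivity)) (by positivity)

end Pool.PNF
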