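import Pool.Agent.H14.PNF.S6
import Pool.Agent.H73.PRK.LAWK

/-!
# PNF, LAWN: the law for the twists of almost all polynomials
-/

set_option autoImplicit false

namespace Pool.PNF

open Polynomial Matrix NumberField IsDedekindDomain Pool.HYP Pool.TOW Pool.AVS Pool.T1 Pool.NF
  Pool.PRK Pool.PRK.Lawk73

namespace Lawn66

section Main

variable {K : Type} [Field K] [NumberField K]

open Classical in
/-- The law for one good polynomial. -/
theorem lawT_of_good (hPAR : PRL.PARStmt) {ε η : ℝ} {k0 : ℕ}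
    (hS : ∀ (T : Type) [Fintype T] [DecidableEq T] (T1 D2 : Finset T) (j : ℕ), Disjoint T1 D2 →
      T1.card = 2 * j + 1 → k0 ≤ j → ∀ M : AddSubgroup (T → PRL.Ty), (∀ m ∈ M, PRL.qf m = 0) →
      Nat.card M = 2 ^ Fintype.card T →
      ({D | D ∈ PRL.sl T1 D2 j ∪ PRL.sl T1 D2 (j + 1) ∧
        ∃ m ∈ M, m ≠ 0 ∧ m ∈ PRL.LS D ∧ ¬ PRL.Bal η T1 D m}.ncard : ℝ) ≤
          η * ((2 * j + 1).choose j : ℝ) →
      ∀ B : ℕ, ∑ r ∈ Finset.range B, |({D | D ∈ PRL.sl T1 D2 j ∪ PRL.sl T1 D2 (j + 1) ∧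
        {m | m ∈ M ∧ m ∈ PRL.LS D}.ncard = 2 ^ r}.ncard : ℝ) / ((2 * j + 1).choose j : ℝ) -
          2 * PRL.PR r| ≤ 2 * ε)
    {Ram : Finset (HeightOneSpectrum (𝓞 K))}
    (hMlg : MlgN Ram) (D : DatN K) (Y j : ℕ) (hOk : D.Ok) (hY : 1 ≤ Y) (hRam : Ram ⊆ D.T')
    (hT : D.T.card = 2 * j + 1) (hj : k0 ≤ j) (ϖ : HeightOneSpectrum (𝓞 K) → (𝓞 K))
    (hϖ : Uni D.T ϖ) (dS : Finset (HeightOneSpectrum (𝓞 K)) → (𝓞 K)) (hdS : TwsN D dS)
    (f : (𝓞 K)[X]) (hf : f ∈ FamSN D Y) (hG : GoodN η D ϖ j f) : LawTN ε D dS f := by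
  obtain ⟨M, hq, hM, hpat, hsel⟩ := hMlg D Y hOk hY hRam f hf ϖ hϖ hG.1
  have hcT : Fintype.card {P : HeightOneSpectrum (𝓞 K) // P ∈ D.T} = D.T.card := Fintype.card_coe _
  have himg := image_sb hT
  have hM' : Nat.card M = 2 ^ Fintype.card {P : HeightOneSpectrum (𝓞 K) // P ∈ D.T} := by rw [hcT, hM]
  obtain ⟨k1, k2, k3⟩ := two_slices hPAR (by rw [hcT, hT]) M hq hM'
  have k4 := hS {P : HeightOneSpectrum (𝓞 K) // P ∈ D.T} Finset.univ ∅ j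
    (by rw [Finset.disjoint_left]; intro P _ hP; exact absurd hP (Finset.notMem_empty _))
    (by rw [Finset.card_univ, hcT, hT]) hj M hq hM' (by
      refine le_trans ?_ hG.2
      refine Nat.cast_le.2 (Set.ncard_le_ncard ?_ (Set.toFinite _))
      rintro S ⟨hS', m, hm, hm0, hmL, hmB⟩
      exact ⟨hS', m, hm0, hmL, hmB, hpat m hm hm0⟩)
  have hsub : ∀ S ∈ Sl D.T, S ⊆ D.T := fun S hS' => (mem_Sl.1 hS').1
  have hinj : Set.InjOn (sb D.T) (Sl D.T : Set (Finset (HeightOneSpectrum (𝓞 K)))) := by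
    intro S hS' S' hS'' h
    exact sb_inj (hsub S hS') (hsub S' hS'') h
  have hsel' : ∀ S ∈ Sl D.T, (SelN (fk K (f.scaleRoots (dS S)))).Finite ∧
      (SelN (fk K (f.scaleRoots (dS S)))).ncard = {m | m ∈ M ∧ m ∈ PRL.LS (sb D.T S)}.ncard :=
    fun S hS' => hsel S (hsub S hS') (dS S) (hdS S (hsub S hS'))
  have key : ∀ Φ : ℕ → Prop, {S | S ∈ Sl D.T ∧ Φ (SelN (fk K (f.scaleRoots (dS S)))).ncard}.ncard =
      {S | S ∈ PRL.sl (Finset.univ : Finset {P : HeightOneSpectrum (𝓞 K) // P ∈ D.T}) ∅ j ∪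
        PRL.sl Finset.univ ∅ (j + 1) ∧ Φ {m | m ∈ M ∧ m ∈ PRL.LS S}.ncard}.ncard := by
    intro Φ
    rw [← (hinj.mono fun S hS' => hS'.1).ncard_image (f := sb D.T)]
    congr 1
    ext S'
    constructor
    · rintro ⟨S, ⟨a1, a2⟩, rfl⟩
      refine ⟨?_, ?_⟩
      · have : sb D.T S ∈ sb D.T '' (Sl D.T : Set (Finset (HeightOneSpectrum (𝓞 K)))) := ⟨S, a1, rfl⟩
        rw [himg] at this
        exact this
      · rw [← (hsel' S a1).2]
        exact a2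
    · rintro ⟨a1, a2⟩
      have : S' ∈ sb D.T '' (Sl D.T : Set (Finset (HeightOneSpectrum (𝓞 K)))) := by
        rw [himg]
        exact a1
      obtain ⟨S, b1, b2⟩ := this
      refine ⟨S, ⟨b1, ?_⟩, b2⟩
      rw [(hsel' S b1).2, b2]
      exact a2
  have hcard : (Sl D.T).card = 2 * (2 * j + 1).choose j := by
    rw [← k1, ← Set.ncard_coe_finset (_ ∪ _), ← himg,
      hinj.ncard_image, Set.ncard_coe_finset]
  refine ⟨fun S hS' => ?_, ?_, fun B => ?_⟩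
  · obtain ⟨r, hr⟩ := k2 (sb D.T S)
    exact ⟨(hsel' S hS').1, r, by rw [(hsel' S hS').2, hr]⟩
  · rw [key (fun x => ∃ r : ℕ, Even r ∧ x = 2 ^ r), k3, hcard]
  · have h5 := k4 B
    have h6 : ∀ r : ℕ, |({S | S ∈ Sl D.T ∧
        (SelN (fk K (f.scaleRoots (dS S)))).ncard = 2 ^ r}.ncard : ℝ) / (Sl D.T).card -
        PRL.PR r| = (1 / 2) *
        |({S | S ∈ PRL.sl (Finset.univ : Finset {P : HeightOneSpectrum (𝓞 K) // P ∈ D.T}) ∅ j ∪
        PRL.sl Finset.univ ∅ (j + 1) ∧ {m | m ∈ M ∧ m ∈ PRL.LS S}.ncard = 2 ^ r}.ncard : ℝ) /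
          ((2 * j + 1).choose j : ℝ) - 2 * PRL.PR r| := by
      intro r
      have h7 : (1 / 2 : ℝ) = |(1 / 2 : ℝ)| := by rw [abs_of_pos (by norm_num)]
      rw [key (fun x => x = 2 ^ r), hcard, h7, ← abs_mul]
      congr 1
      push_cast
      rw [mul_sub, ← mul_div_assoc]
      have hc : ((2 * j + 1).choose j : ℝ) ≠ 0 := by
        have : 0 < (2 * j + 1).choose j := Nat.choose_pos (by omega)
        exact_mod_cast this.ne'
      field_simp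
    rw [Finset.sum_congr rfl fun r _ => h6 r, ← Finset.mul_sum]
    linarith

end Main

end Lawn66

open Lawn66

/-- **LAWN.** -/
theorem lawn : LAWNStmt := by
  intro hGDF hBLC hSLC hPAR K _ _ T' A Ram C b hAv hFam hDen hA hMlg hRam ε hε
  obtain ⟨k1, η, hη, hS⟩ := hSLC (2 * ε) (by linarith)
  obtain ⟨k2, hg⟩ := hGDF K T' A C b hBLC hAv hFam hDen hA ε η hε hη
  refine ⟨max k1 k2, ?_⟩
  intro D j hOk hT' hT hj hP dS hdS
  classical
  obtain ⟨ϖ, hϖe⟩ : ∃ ϖ : HeightOneSpectrum (𝓞 K) → (𝓞 K), ∀ P, ϖ P = dS {P} :=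
    ⟨fun P => dS {P}, fun _ => rfl⟩
  have hϖ : Uni D.T ϖ := by
    intro P hPT
    have h1 := (hdS {P} (Finset.singleton_subset_iff.2 hPT)).1.2.1 P (Finset.mem_singleton_self P)
    rw [hϖe]
    exact h1
  obtain ⟨Y₀, hh⟩ := hg D j hOk hT' hT ((le_max_right _ _).trans hj) hP ϖ hϖ
  obtain ⟨c, hc⟩ := hFam
  obtain ⟨Y₁, hY₁⟩ := hc D hOk
  refine ⟨max 1 (max Y₀ Y₁), fun Y hYY => ?_⟩
  have hY1 : 1 ≤ Y := (le_max_left _ _).trans hYY
  have hY2 : Y₀ ≤ Y := ((le_max_left _ _).trans (le_max_right _ _)).trans hYY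
  have hY3 : Y₁ ≤ Y := ((le_max_right _ _).trans (le_max_right _ _)).trans hYY
  refine le_trans ?_ (hh Y hY2)
  have hf : (FamSN D Y).Finite := ((hY₁ Y hY3).1).subset fun f hf => hf.1
  refine Nat.cast_le.2 (Set.ncard_le_ncard ?_ (hf.subset fun f hf => hf.1))
  rintro f ⟨hf1, hL⟩
  refine ⟨hf1, fun hG => hL ?_⟩
  exact lawT_of_good hPAR hS hMlg D Y j hOk hY1 (by rw [hT']; exact hRam) hT
    ((le_max_left _ _).trans hj) ϖ hϖ dS hdS f hf1 hG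

end Pool.PNF
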