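import Pool.Agent.H66.PNF.FZ
import Pool.Agent.H94.NF.SV3
import Pool.Agent.H94.NF.DENN
import Pool.Agent.H31.NF.PT3
import Pool.Agent.H73.NF.DS3
import Pool.Agent.H46.NF.NRM
import Pool.Agent.H24.NF.CF
import Pool.Agent.H85.NF.PRZ
import Pool.Agent.H29.NF.PRS

/-!
# PNF: most polynomials with `a_1 = 0` are smooth
-/

set_option autoImplicit false

namespace Pool.PNF.DZ66

open Polynomial NumberField IsDedekindDomain Pool.NF Pool.T1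

/-- The sieve with `a_1 = 0`. -/
theorem sv2 (hSG : SG3Stmt) (hDB3 : DB3Stmt) (hCFU : CFUStmt) (hCFL : CFLStmt)
    (hPRS : PRSStmt) (hPRZ : PRZStmt) (hNRM : NRMStmt) :
    ∀ (K : Type) [Field K] [NumberField K], ∃ b : ℕ,
    ∀ (I : Ideal (𝓞 K)) (c₂ c₃ : 𝓞 K), I ≠ ⊥ →
    (∀ P : HeightOneSpectrum (𝓞 K), Ni P.asIdeal ≤ b → I ≤ P.asIdeal) →
    ∃ X₀ : ℝ, ∀ X : ℝ, X₀ ≤ X →
      8 * {a : 𝓞 K × 𝓞 K | a.1 ∈ Cf K 0 (1 / 200) I c₂ (X ^ 2) ∧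
          a.2 ∈ Cf K (-1) (1 / 200) I c₃ (X ^ 3) ∧ dsc 0 a.1 a.2 ≠ 0 ∧
          ∃ P : HeightOneSpectrum (𝓞 K), ¬ I ≤ P.asIdeal ∧
            Pool.T1.Sing P.asIdeal (cub 0 a.1 a.2)}.ncard ≤
        (Cf K 0 (1 / 200) I c₂ (X ^ 2)).ncard * (Cf K (-1) (1 / 200) I c₃ (X ^ 3)).ncard := by
  classical
  intro K _ _
  obtain ⟨η, hη₀⟩ : ∃ η : ℝ, η = 1 / 200 := ⟨_, rfl⟩
  have hη : 0 < η := by rw [hη₀]; norm_num
  rw [← hη₀]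
  set B : ℝ := |(-1 : ℝ)| + η with hB
  have hB0 : 0 < B := by positivity
  obtain ⟨C₁, hC₁, hU₃⟩ := hCFU K (-1) η hη
  obtain ⟨_, _, hU₂⟩ := hCFU K 0 η hη
  obtain ⟨C₂, hC₂, hL⟩ := hCFL K (-1) η hη
  obtain ⟨C₃, hC₃, hD⟩ := hDB3 K B hB0
  obtain ⟨b₀, hb₀⟩ := hPRS K (C₂ / (32 * C₁)) (by positivity)
  obtain ⟨b₁, hb₁⟩ := exists_nat_ge (max b₀ ((3 : ℝ) ^ dg K))
  refine ⟨b₁, fun I c₂ c₃ hI0 hI => ?_⟩
  have hNI : 0 < Ni I := CF.ni_pos hI0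
  have hNIr : (0 : ℝ) < Ni I := by exact_mod_cast hNI
  obtain ⟨Y₀, hY₀, hL'⟩ := hL I hI0
  obtain ⟨x₀, hx₀⟩ := hPRZ K (C₂ / (32 * C₁ * C₃ * Ni I)) (by positivity)
  have hn : 1 ≤ dg K := Module.finrank_pos
  refine ⟨max Y₀ (max 1 (x₀ / C₃)), fun X hX => ?_⟩
  have hX1 : 1 ≤ X := le_trans (le_max_left _ _) (le_trans (le_max_right _ _) hX)
  have hXY : Y₀ ≤ X := (le_max_left _ _).trans hX
  have hXx : x₀ / C₃ ≤ X := (le_max_right _ _).trans ((le_max_right _ _).trans hX)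
  have hX3 : X ≤ X ^ 3 := by
    calc X = X ^ 1 := (pow_one X).symm
      _ ≤ X ^ 3 := pow_le_pow_right₀ hX1 (by norm_num)
  have hX31 : 1 ≤ X ^ 3 := one_le_pow₀ hX1
  have hZX : X ≤ (X ^ 3) ^ dg K := by
    refine hX3.trans ?_
    calc X ^ 3 = (X ^ 3) ^ 1 := (pow_one _).symm
      _ ≤ (X ^ 3) ^ dg K := pow_le_pow_right₀ hX31 hn
  have hx : x₀ ≤ C₃ * (X ^ 3) ^ dg K := by
    rw [div_le_iff₀ hC₃] at hXx
    nlinarith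
  have h0 : (0 : 𝓞 K) ∈ Cf K 0 η I 0 X := by
    refine ⟨by rw [sub_zero]; exact I.zero_mem, fun σ => ?_⟩
    have e : ‖σ ((0 : 𝓞 K) : K) - ((0 : ℝ) * X : ℝ)‖ = 0 := by simp
    rw [e]
    positivity
  have hfib := fun (a₂ : 𝓞 K) (ha₂ : a₂ ∈ Cf K 0 η I c₂ (X ^ 2)) =>
    sv3_fib (K := K) hSG hNRM (B := B) (C₁ := C₁) (C₂ := C₂) (C₃ := C₃) (b := b₁) (c₃ := c₃)
      (z₃ := -1) hX1
      (by rw [hB, abs_zero]; have := abs_nonneg (-1 : ℝ); linarith)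
      (by rw [hB, abs_zero]; have := abs_nonneg (-1 : ℝ); linarith)
      (by rw [hB]) hC₁
      ((le_max_right _ _).trans hb₁) (hU₃ I c₃ (X ^ 3) hI0 hX31)
      (hL' (X ^ 3) (hXY.trans hX3) c₃) hD hI
      (fun S hS => hb₀ S (fun P hP => lt_of_le_of_lt ((le_max_left _ _).trans hb₁) (hS P hP)))
      (hx₀ _ hx) hC₃ hNI h0 ha₂
  have hf₂ : (Cf K 0 η I c₂ (X ^ 2)).Finite := (hU₂ I c₂ (X ^ 2) hI0 (one_le_pow₀ hX1)).1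
  have hf₃ : (Cf K (-1) η I c₃ (X ^ 3)).Finite := (hU₃ I c₃ (X ^ 3) hI0 hX31).1
  set A₃ := Cf K (-1) η I c₃ (X ^ 3) with hA₃
  let FF : Finset (𝓞 K) := hf₂.toFinset
  let Bs : 𝓞 K → Set (𝓞 K) := fun x => {a ∈ A₃ | dsc 0 x a ≠ 0 ∧
      ∃ P : HeightOneSpectrum (𝓞 K), ¬ I ≤ P.asIdeal ∧
        Pool.T1.Sing P.asIdeal (cub 0 x a)}
  have hBfin : ∀ x, (Bs x).Finite := fun x => hf₃.subset (Set.sep_subset _ _)
  have hsub : {a : 𝓞 K × 𝓞 K | a.1 ∈ Cf K 0 η I c₂ (X ^ 2) ∧ a.2 ∈ A₃ ∧ dsc 0 a.1 a.2 ≠ 0 ∧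
      ∃ P : HeightOneSpectrum (𝓞 K), ¬ I ≤ P.asIdeal ∧
        Pool.T1.Sing P.asIdeal (cub 0 a.1 a.2)} ⊆
      ⋃ x ∈ FF, (fun a => (x, a)) '' Bs x := by
    rintro ⟨a₂, a₃⟩ ⟨h2, h3, h4, h5⟩
    simp only [Set.mem_iUnion]
    exact ⟨a₂, hf₂.mem_toFinset.2 h2, a₃, ⟨h3, h4, h5⟩, rfl⟩
  obtain ⟨h1, h2⟩ := Pool.HYP.Den.ncard_bU FF (fun x => (fun a => (x, a)) '' Bs x)
    fun x _ => (hBfin x).image _
  have h3 := (Set.ncard_le_ncard hsub h2).trans h1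
  have h4 : ∀ x ∈ FF, 8 * ((fun a => (x, a)) '' Bs x).ncard ≤ A₃.ncard := by
    intro x hx'
    have h5 := hfib x (hf₂.mem_toFinset.1 hx')
    have h6 : ((fun a => (x, a)) '' Bs x).ncard ≤ (Bs x).ncard :=
      Set.ncard_image_le (hBfin x)
    exact le_trans (Nat.mul_le_mul_left _ h6) h5
  calc 8 * _ ≤ 8 * ∑ x ∈ FF, ((fun a => (x, a)) '' Bs x).ncard := Nat.mul_le_mul_left _ h3
    _ = ∑ x ∈ FF, 8 * ((fun a => (x, a)) '' Bs x).ncard := Finset.mul_sum _ _ _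
    _ ≤ ∑ _x ∈ FF, A₃.ncard := Finset.sum_le_sum h4
    _ = (Cf K 0 η I c₂ (X ^ 2)).ncard * A₃.ncard := by
        rw [Finset.sum_const, smul_eq_mul, Set.ncard_eq_toFinset_card _ hf₂]

end Pool.PNF.DZ66

namespace Pool.PNF

open Polynomial Matrix NumberField IsDedekindDomain Pool.HYP Pool.TOW Pool.AVS Pool.T1 Pool.NF
  Pool.PRK FZ66 DZ66

theorem dezn : DEZNStmt := by
  classical
  intro K _ _
  obtain ⟨b, hb⟩ := sv2 (sg3 pt3) (db3 (ds3 pt3) nrm) (CF.cfu bxu) (CF.cfl bxl) prs prz nrm K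
  obtain ⟨x₀, hx₀⟩ := prz K 1 one_pos
  have hfin := (hx₀ (max x₀ b) (le_max_left _ _)).1
  obtain ⟨P₀⟩ : Nonempty (HeightOneSpectrum (𝓞 K)) := by
    obtain ⟨M, hM⟩ := Ideal.exists_maximal (𝓞 K)
    exact ⟨⟨M, hM.isPrime, Ring.ne_bot_of_isMaximal_of_not_isField hM
      (RingOfIntegers.not_isField K)⟩⟩
  refine ⟨insert P₀ hfin.toFinset, fun D hD hT hA => ?_⟩
  obtain ⟨I, c₂, c₃, hI0, -, hI, -, hF, -⟩ := famZ_eq D hD hT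
  obtain ⟨X₀, hX₀⟩ := hb I c₂ c₃ hI0 (fun P hP => (hI P).1 (Or.inr (hA (by
    rw [Finset.mem_insert, Set.Finite.mem_toFinset]
    right
    change (Ni P.asIdeal : ℝ) ≤ max x₀ b
    exact (Nat.cast_le.2 hP).trans (le_max_right _ _)))))
  obtain ⟨Y₁, hY₁⟩ := exists_nat_ge (max X₀ 1)
  refine ⟨Y₁, fun Y hY => ?_⟩
  have hYr : max X₀ 1 ≤ (Y : ℝ) := hY₁.trans (by exact_mod_cast hY)
  have hYX : X₀ ≤ (Y : ℝ) := (le_max_left _ _).trans hYr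
  have f2 := CF.cf_fin (K := K) 0 (1 / 200) I c₂ ((Y : ℝ) ^ 2)
  have f3 := CF.cf_fin (K := K) (-1) (1 / 200) I c₃ ((Y : ℝ) ^ 3)
  have hinj : Function.Injective (fun a : 𝓞 K × 𝓞 K => cub 0 a.1 a.2) := by
    intro a b hab
    have h := @cub_inj (𝓞 K) _ (0, a.1, a.2) (0, b.1, b.2) hab
    simp only [Prod.mk.injEq, true_and] at h
    exact Prod.ext h.1 h.2
  have hcard : (FamZN D Y).ncard = (Cf K 0 (1 / 200) I c₂ ((Y : ℝ) ^ 2)).ncard *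
      (Cf K (-1) (1 / 200) I c₃ ((Y : ℝ) ^ 3)).ncard := by
    rw [hF Y, Set.ncard_image_of_injective _ hinj, Set.ncard_prod]
  have hsv := hX₀ (Y : ℝ) hYX
  rw [← hcard] at hsv
  refine le_trans ?_ hsv
  set A : Set (𝓞 K × 𝓞 K) := {a | a.1 ∈ Cf K 0 (1 / 200) I c₂ ((Y : ℝ) ^ 2) ∧
    a.2 ∈ Cf K (-1) (1 / 200) I c₃ ((Y : ℝ) ^ 3) ∧ dsc 0 a.1 a.2 ≠ 0 ∧
    ∃ P : HeightOneSpectrum (𝓞 K), ¬ I ≤ P.asIdeal ∧
      Pool.T1.Sing P.asIdeal (cub 0 a.1 a.2)} with hAdef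
  have hAfin : A.Finite := by
    refine (f2.prod f3).subset ?_
    rintro ⟨a', a''⟩ ⟨h2, h3, -⟩
    exact ⟨h2, h3⟩
  have hsub : {f ∈ FamZN D Y | ¬ Smooth f} ⊆
      (fun a : 𝓞 K × 𝓞 K => cub 0 a.1 a.2) '' A := by
    rintro f ⟨hf, hs⟩
    have hfN : f ∈ FamN D Y := hf.1
    have hf' := hf
    rw [hF Y] at hf'
    obtain ⟨⟨a₂, a₃⟩, ⟨h2, h3⟩, rfl⟩ := hf'
    refine ⟨(a₂, a₃), ⟨h2, h3, ?_, ?_⟩, rfl⟩
    · have hP₀ : P₀ ∈ D.T' := hA (Finset.mem_insert_self _ _)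
      have hirr := irr_of_md P₀ hfN.1 (hD.2.2.1 P₀ hP₀).2.2 (hfN.2.2.2.2 P₀ hP₀)
      intro h0
      have h4 := dsc_ne (algebraMap (𝓞 K) K 0) (algebraMap (𝓞 K) K a₂) (algebraMap (𝓞 K) K a₃)
        (by rw [← cub_map]; exact hirr)
      apply h4
      rw [← dsc_map, h0, map_zero]
    · unfold Pool.T1.Smooth at hs
      push Not at hs
      obtain ⟨P, hP⟩ := hs
      refine ⟨P, fun hle => ?_, hP⟩
      exact not_sing hD hfN ((hI P).2 hle) hP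
  have h1 : {f ∈ FamZN D Y | ¬ Smooth f}.ncard ≤ A.ncard :=
    (Set.ncard_le_ncard hsub (hAfin.image _)).trans (Set.ncard_image_le hAfin)
  omega

end Pool.PNF
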